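import Mathlib

namespace Pool.Agent.Results.MP_b8aaf5_co.Twelve

/-- a move: take one token from one pile, or one token from every pile; empty piles are discarded -/
def Move (s t : Multiset ℕ) : Prop :=
  (∃ a ∈ s, t = ((a - 1) ::ₘ s.erase a).filter (0 < ·)) ∨
    (s ≠ 0 ∧ t = (s.map (· - 1)).filter (0 < ·))

/-- outcome: true = the player to move wins, false = the player to move loses -/
inductive Out : Bool → Multiset ℕ → Prop
  | lose (s : Multiset ℕ) : (∀ t, Move s t → Out true t) → Out false s
  | win (s t : Multiset ℕ) : Move s t → Out false t → Out true s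

/-- membership in S_k -/
def InS (k j : ℕ) : Prop :=
  if k % 2 = 1 then j % 2 = 0 else (j % 2 = 0 ∧ 2 * j < k) ∨ (j % 2 = 1 ∧ k < 2 * j)

def g (c n : ℕ) : ℕ := if 1 ≤ n ∧ n ≤ 6 then c / 16 ^ (n - 1) % 16 else 0

def mv (c a : ℕ) : ℕ :=
  if a = 0 then c / 16 else c - 16 ^ (a - 1) + if a = 1 then 0 else 16 ^ (a - 2)

def valid (c a : ℕ) : Bool :=
  if a = 0 then (List.range 7).any fun n => 0 < g c n else 0 < g c a

def nw (c a n : ℕ) : ℕ :=
  if 0 < n then
    (if a = 0 then g c (n + 1) else g c n - (if n = a then 1 else 0) + if n = a - 1 then 1 else 0)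
  else 0

def rel (c a : ℕ) : Bool := (List.range 7).all fun n => g (mv c a) n == nw c a n

def good (D : List ℕ) (c : ℕ) : Bool :=
  (List.range 7).all fun a => !valid c a || (rel c a && (List.range 7).any fun b =>
    valid (mv c a) b && (D.contains (mv (mv c a) b) && rel (mv c a) b))

def chk : List ℕ → List ℕ → Bool
  | _, [] => true
  | D, c :: r => good D c && chk (c :: D) r

def Rep (s : Multiset ℕ) (c : ℕ) : Prop := ∀ n, s.count n = g c n

def res (s : Multiset ℕ) (a : ℕ) : Multiset ℕ :=
  if a = 0 then (s.map (· - 1)).filter (0 < ·) else ((a - 1) ::ₘ s.erase a).filter (0 < ·)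

lemma g_big (c : ℕ) {n : ℕ} (h : 7 ≤ n) : g c n = 0 := by simp [g]; omega

lemma rep_res {s : Multiset ℕ} {c a : ℕ} (h : Rep s c) (ha : a < 7) (hr : rel c a = true) :
    Rep (res s a) (mv c a) := by
  intro n
  have e : g (mv c a) n = nw c a n := by
    by_cases hn : n < 7
    · simpa using List.all_eq_true.mp hr n (List.mem_range.mpr hn)
    · rw [g_big _ (by omega), nw, g_big c (by omega : 7 ≤ n), g_big c (by omega : 7 ≤ n + 1)]
      split_ifs <;> omega
  rw [e, res, nw]
  by_cases h0 : 0 < n
  · rw [if_pos h0]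
    split_ifs with h1 h2 h3 h3
    · rw [Multiset.count_filter_of_pos h0, ← h (n + 1), Multiset.count_map,
        Multiset.count_eq_card_filter_eq]
      congr 1
      exact Multiset.filter_congr fun x _ => by omega
    · omega
    · rw [Multiset.count_filter_of_pos h0, Multiset.count_cons_of_ne h3, h2,
        Multiset.count_erase_self, h]
      rfl
    · rw [Multiset.count_filter_of_pos h0, ← h3, Multiset.count_cons_self,
        Multiset.count_erase_of_ne h2, h]
      rfl
    · rw [Multiset.count_filter_of_pos h0, Multiset.count_cons_of_ne h3,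
        Multiset.count_erase_of_ne h2, h]
      rfl
  · rw [if_neg h0]
    split_ifs <;> exact Multiset.count_filter_of_neg h0

lemma move_iff {s t : Multiset ℕ} {c : ℕ} (h : Rep s c) :
    Move s t ↔ ∃ a < 7, valid c a = true ∧ t = res s a := by
  constructor
  · rintro (⟨a, ha, rfl⟩ | ⟨h0, rfl⟩)
    · have h1 : 0 < g c a := h a ▸ Multiset.count_pos.mpr ha
      have h2 : a ≠ 0 ∧ a < 7 := by
        unfold g at h1
        split_ifs at h1 <;> omega
      exact ⟨a, h2.2, by simp [valid, h2.1, h1], by simp [res, h2.1]⟩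
    · obtain ⟨a, ha⟩ := Multiset.exists_mem_of_ne_zero h0
      have h1 : 0 < g c a := h a ▸ Multiset.count_pos.mpr ha
      have h2 : a < 7 := by
        unfold g at h1
        split_ifs at h1 <;> omega
      refine ⟨0, by omega, ?_, by simp [res]⟩
      simp only [valid, if_true, List.any_eq_true, List.mem_range, decide_eq_true_eq]
      exact ⟨a, h2, h1⟩
  · rintro ⟨a, -, hv, rfl⟩
    unfold valid at hv
    unfold res
    split_ifs at hv ⊢ with h0
    · simp only [List.any_eq_true, List.mem_range, decide_eq_true_eq] at hv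
      obtain ⟨n, -, hn⟩ := hv
      refine Or.inr ⟨?_, rfl⟩
      rintro rfl
      rw [← h n] at hn
      simp at hn
    · exact Or.inl ⟨a, Multiset.count_pos.mp (by rw [h a]; simpa using hv), rfl⟩

lemma good_sound {D : List ℕ} (hD : ∀ d ∈ D, ∀ s, Rep s d → Out false s) {c : ℕ}
    (h : good D c = true) (s : Multiset ℕ) (hs : Rep s c) : Out false s := by
  refine Out.lose s fun t ht => ?_
  obtain ⟨a, ha, hv, rfl⟩ := (move_iff hs).mp ht
  have := List.all_eq_true.mp h a (List.mem_range.mpr ha)
  simp only [hv, Bool.not_true, Bool.false_or, Bool.and_eq_true, List.any_eq_true,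
    List.mem_range, List.contains_iff_mem] at this
  obtain ⟨h1, b, hb, h2, h3, h4⟩ := this
  have r1 := rep_res hs ha h1
  exact Out.win _ _ ((move_iff r1).mpr ⟨b, hb, h2, rfl⟩) (hD _ h3 _ (rep_res r1 hb h4))

lemma chk_sound (R : List ℕ) : ∀ D : List ℕ, (∀ d ∈ D, ∀ s, Rep s d → Out false s) →
    chk D R = true → ∀ d ∈ R, ∀ s, Rep s d → Out false s := by
  induction R with
  | nil => simp
  | cons c r ih =>
    intro D hD h
    simp only [chk, Bool.and_eq_true] at h
    have h1 := good_sound hD h.1
    intro d hd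
    rcases List.mem_cons.mp hd with rfl | hd
    · exact h1
    · refine ih (c :: D) (fun e he => ?_) h.2 d hd
      rcases List.mem_cons.mp he with rfl | he
      · exact h1
      · exact hD e he

def L : List ℕ := 
  [0, 16, 18, 4096, 32, 4112, 4098, 20, 34, 48, 4353, 22, 64, 4114, 8192, 50, 36, 4128, 528, 8208,
  4608, 4144, 305, 52, 530, 24, 8194, 38, 66, 80, 4355, 784, 532, 54, 40, 26, 8196, 4160, 8224,
  560, 82, 307, 68, 8210, 4610, 96, 4385, 786, 56, 8465, 70, 8212, 4387, 4640, 8226, 562, 1040,
  8240, 4176, 98, 534, 4612, 42, 84, 816, 788, 86, 16384, 4192, 536, 8256, 564, 8467, 100, 4642,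
  12320, 1042, 4614, 128, 8720, 592, 72, 8228, 790, 818, 1296, 8722, 594, 12800, 1072, 566, 8497,
  8469, 4208, 16386, 16400, 144, 8272, 12322, 12336, 1298, 820, 848, 792, 16402, 12352, 1552, 624,
  596, 16416, 8288, 8752, 160, 4224, 8724, 20480, 12802, 12338, 12324, 1328, 850, 822, 20482,
  12565, 12804, 8304, 16432, 626, 1104, 4240, 16418, 8754, 12368, 20496, 12354, 12832, 16896,
  16657, 852, 880, 1584, 1106, 12834, 20512, 16898, 8784, 8320, 16448, 20498, 24576, 12384, 12595,
  13312, 20484, 16912, 16659, 12806, 882, 1360, 20500, 20753, 20992, 12836, 13314, 24592, 12625,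
  16900, 12864, 20528, 20514, 16689, 16928, 16914, 16464, 24578, 12400, 912, 20516, 24608, 12866,
  20994, 16944, 24580, 21008, 13316, 16916, 16930, 17408, 24594, 20755, 12416, 20544, 16480,
  17169, 13344, 1392, 17171, 13346, 20560, 21010, 16496, 17424, 24849, 16960, 24596, 20757, 12896,
  21024, 13824, 25088, 17410, 24582, 16976, 21504, 20576, 25104, 13376, 21265, 21012, 17440,
  17426, 21040, 16512, 24851, 13826, 21520, 25092, 13856, 17456, 17920, 25106, 17681, 21267,
  16992, 21056, 25361, 17472, 17936, 21536, 21522, 17952, 21777, 25616, 25602, 18432, 22032,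
  26112, 393552, 397632, 401712, 405792, 409872, 413952, 356352, 6684672]

lemma chkL : chk [] L = true := by decide +kernel

theorem result : ∃ (k : ℕ) (s : Multiset ℕ), 3 ≤ k ∧ s.card = k ∧ (∀ a ∈ s, (k + 2) / 3 < a) ∧
    Out false s ∧ ¬ InS k (s.filter Odd).card := by
  refine ⟨12, Multiset.replicate 6 5 + Multiset.replicate 6 6, by norm_num, by simp, by decide,
    chk_sound L [] (by simp) chkL 6684672 (by decide +kernel) _ fun n => ?_, ?_⟩
  · by_cases hn : n < 7
    · revert n; decide +kernel
    · rw [g_big _ (by omega), Multiset.count_add, Multiset.count_replicate,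
        Multiset.count_replicate, if_neg (by omega), if_neg (by omega)]
  · unfold InS; decide +kernel

end Pool.Agent.Results.MP_b8aaf5_co.Twelve
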